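import Mathlib

set_option autoImplicit false

namespace Pool.Agent.Results.MP_5adcc8_co.Counter

open Finset

/-- a binary matrix with `m` rows and `n` columns -/
structure BMat where
  m : ℕ
  n : ℕ
  e : Fin m → Fin n → Bool

/-- `P` is an interval minor of `M`: the rows and columns of `M` split into consecutive nonempty
intervals, one for each row and column of `P`, with a 1 in every block where `P` has a 1 -/
def Minor (P M : BMat) : Prop :=
  ∃ (ρ : Fin M.m → Fin P.m) (γ : Fin M.n → Fin P.n),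
    Monotone ρ ∧ Function.Surjective ρ ∧ Monotone γ ∧ Function.Surjective γ ∧
      ∀ i j, P.e i j = true → ∃ r c, ρ r = i ∧ γ c = j ∧ M.e r c = true

def Av (F : Set BMat) : Set BMat := {M | ∀ P ∈ F, ¬ Minor P M}

/-- change the entry `(r, c)` to 1 -/
def setOne (M : BMat) (r : Fin M.m) (c : Fin M.n) : BMat :=
  ⟨M.m, M.n, fun x y => if x = r ∧ y = c then true else M.e x y⟩

def Critical (C : Set BMat) (M : BMat) : Prop :=
  M ∈ C ∧ ∀ r c, M.e r c = false → setOne M r c ∉ C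

/-- the number of maximal blocks of consecutive zeros, counted by their first entries -/
def zeroRuns {n : ℕ} (v : Fin n → Bool) : ℕ :=
  (univ.filter fun c : Fin n => v c = false ∧ ∀ c' : Fin n, c'.val + 1 = c.val → v c' = true).card

def Bounded (C : Set BMat) : Prop :=
  ∃ B : ℕ, ∀ M, Critical C M →
    (∀ r, zeroRuns (M.e r) ≤ B) ∧ ∀ c, zeroRuns (fun r => M.e r c) ≤ B

/-- `Q` arises from `P` by inserting empty rows and columns -/
def InsertEmpty (P Q : BMat) : Prop :=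
  ∃ (α : Fin P.m → Fin Q.m) (β : Fin P.n → Fin Q.n), StrictMono α ∧ StrictMono β ∧
    (∀ i j, Q.e (α i) (β j) = P.e i j) ∧ ∀ x y, Q.e x y = true → ∃ i j, x = α i ∧ y = β j

def P : BMat := ⟨3, 3, ![![false, true, false], ![true, false, false], ![false, false, true]]⟩
def R : BMat := ⟨3, 2, ![![true, false], ![false, true], ![false, false]]⟩
def R' : BMat :=
  ⟨5, 2, ![![false, false], ![true, false], ![false, false], ![false, true], ![false, false]]⟩

theorem ext_mono {k m : ℕ} (t : Fin (k + 1) → Fin m) (ht : StrictMono t) :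
    ∃ ρ : Fin m → Fin (k + 1), Monotone ρ ∧ Function.Surjective ρ ∧ ∀ i, ρ (t i) = i := by
  have key : ∀ i, (univ.filter fun j => t j ≤ t i).sup id = i := by
    intro i
    apply le_antisymm
    · exact Finset.sup_le fun j hj => ht.le_iff_le.1 (mem_filter.1 hj).2
    · exact Finset.le_sup (f := id) (by simp)
  refine ⟨fun r => (univ.filter fun j => t j ≤ r).sup id, fun a b hab => ?_,
    fun i => ⟨t i, key i⟩, key⟩
  exact Finset.sup_mono fun j hj => by
    simp only [mem_filter, mem_univ, true_and] at hj ⊢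
    exact hj.trans hab

theorem lt_of {m k : ℕ} {ρ : Fin m → Fin k} (h : Monotone ρ) {a b : Fin m} {i j : Fin k}
    (ha : ρ a = i) (hb : ρ b = j) (hij : i < j) : a < b :=
  h.reflect_lt (by rw [ha, hb]; exact hij)

theorem sm3 {m : ℕ} {a b c : Fin m} (h1 : a < b) (h2 : b < c) : StrictMono ![a, b, c] := by
  refine Fin.strictMono_iff_lt_succ.2 fun i => ?_
  fin_cases i <;> simpa

theorem sm2 {m : ℕ} {a b : Fin m} (h1 : a < b) : StrictMono ![a, b] := by
  refine Fin.strictMono_iff_lt_succ.2 fun i => ?_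
  fin_cases i; simpa

theorem minorP (M : BMat) : Minor P M ↔ ∃ r1 r2 r3 c1 c2 c3, r1 < r2 ∧ r2 < r3 ∧ c1 < c2 ∧
    c2 < c3 ∧ M.e r1 c2 = true ∧ M.e r2 c1 = true ∧ M.e r3 c3 = true := by
  constructor
  · rintro ⟨ρ, γ, h1, -, h2, -, h⟩
    obtain ⟨r1, c2, a1, b2, e1⟩ := h (0 : Fin 3) (1 : Fin 3) rfl
    obtain ⟨r2, c1, a2, b1, e2⟩ := h (1 : Fin 3) (0 : Fin 3) rfl
    obtain ⟨r3, c3, a3, b3, e3⟩ := h (2 : Fin 3) (2 : Fin 3) rfl
    exact ⟨r1, r2, r3, c1, c2, c3, lt_of h1 a1 a2 (by decide), lt_of h1 a2 a3 (by decide),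
      lt_of h2 b1 b2 (by decide), lt_of h2 b2 b3 (by decide), e1, e2, e3⟩
  · rintro ⟨r1, r2, r3, c1, c2, c3, a1, a2, b1, b2, e1, e2, e3⟩
    obtain ⟨ρ, h1, h2, h3⟩ := ext_mono _ (sm3 a1 a2)
    obtain ⟨γ, g1, g2, g3⟩ := ext_mono _ (sm3 b1 b2)
    refine ⟨ρ, γ, h1, h2, g1, g2, fun (i : Fin 3) (j : Fin 3) hij => ⟨_, _, h3 i, g3 j, ?_⟩⟩
    fin_cases i <;> fin_cases j <;> first | exact absurd hij (by decide) | simpa

theorem minorR (M : BMat) : Minor R M ↔ ∃ r1 r2 r3 c1 c2, r1 < r2 ∧ r2 < r3 ∧ c1 < c2 ∧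
    M.e r1 c1 = true ∧ M.e r2 c2 = true := by
  constructor
  · rintro ⟨ρ, γ, h1, hs, h2, -, h⟩
    obtain ⟨r1, c1, a1, b1, e1⟩ := h (0 : Fin 3) (0 : Fin 2) rfl
    obtain ⟨r2, c2, a2, b2, e2⟩ := h (1 : Fin 3) (1 : Fin 2) rfl
    obtain ⟨r3, a3⟩ := hs (2 : Fin 3)
    exact ⟨r1, r2, r3, c1, c2, lt_of h1 a1 a2 (by decide), lt_of h1 a2 a3 (by decide),
      lt_of h2 b1 b2 (by decide), e1, e2⟩
  · rintro ⟨r1, r2, r3, c1, c2, a1, a2, b1, e1, e2⟩
    obtain ⟨ρ, h1, h2, h3⟩ := ext_mono _ (sm3 a1 a2)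
    obtain ⟨γ, g1, g2, g3⟩ := ext_mono _ (sm2 b1)
    refine ⟨ρ, γ, h1, h2, g1, g2, fun (i : Fin 3) (j : Fin 2) hij => ⟨_, _, h3 i, g3 j, ?_⟩⟩
    fin_cases i <;> fin_cases j <;> first | exact absurd hij (by decide) | simpa

theorem minorR' (M : BMat) (h : Minor R' M) : ∃ r0 r1 r2 r3 c1 c2, r0 < r1 ∧ r1 < r2 ∧ r2 < r3 ∧
    c1 < c2 ∧ M.e r1 c1 = true ∧ M.e r3 c2 = true := by
  obtain ⟨ρ, γ, h1, hs, h2, -, h⟩ := h
  obtain ⟨r1, c1, a1, b1, e1⟩ := h (1 : Fin 5) (0 : Fin 2) rfl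
  obtain ⟨r3, c2, a3, b2, e2⟩ := h (3 : Fin 5) (1 : Fin 2) rfl
  obtain ⟨r0, a0⟩ := hs (0 : Fin 5)
  obtain ⟨r2, a2⟩ := hs (2 : Fin 5)
  exact ⟨r0, r1, r2, r3, c1, c2, lt_of h1 a0 a1 (by decide), lt_of h1 a1 a2 (by decide),
    lt_of h1 a2 a3 (by decide), lt_of h2 b1 b2 (by decide), e1, e2⟩

theorem runs_le {n : ℕ} (v : Fin n → Bool)
    (h : ∀ a b c d e : Fin n, a < b → b < c → c < d → d < e → v a = true → v b = true →
      v c = false → v d = true → v e = true → False) : zeroRuns v ≤ 4 := by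
  by_contra hc
  unfold zeroRuns at hc
  set S := univ.filter fun c : Fin n =>
    v c = false ∧ ∀ c' : Fin n, c'.val + 1 = c.val → v c' = true
  have h5 : 5 ≤ S.card := by omega
  let s := S.orderEmbOfCardLe h5
  have hs : ∀ i, v (s i) = false ∧ ∀ c' : Fin n, c'.val + 1 = (s i).val → v c' = true :=
    fun i => (mem_filter.1 (S.orderEmbOfCardLe_mem h5 i)).2
  have l1 : (s 0).val < (s 1).val := s.strictMono (by decide)
  have l2 : (s 1).val < (s 2).val := s.strictMono (by decide)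
  have l3 : (s 2).val < (s 3).val := s.strictMono (by decide)
  have l4 : (s 3).val < (s 4).val := s.strictMono (by decide)
  have p : ∀ i, (s i).val - 1 < n := fun i => by have := (s i).2; omega
  have e3 : v ⟨(s 3).val - 1, p 3⟩ = true := (hs 3).2 _ (by simp only; omega)
  have n3 : (s 2).val ≠ (s 3).val - 1 := by
    intro e
    have : s 2 = ⟨(s 3).val - 1, p 3⟩ := Fin.ext e
    rw [← this, (hs 2).1] at e3
    exact absurd e3 (by simp)
  exact h ⟨(s 1).val - 1, p 1⟩ ⟨(s 2).val - 1, p 2⟩ (s 2) ⟨(s 3).val - 1, p 3⟩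
    ⟨(s 4).val - 1, p 4⟩ (by simp only [Fin.lt_def]; omega) (by simp only [Fin.lt_def]; omega)
    (by simp only [Fin.lt_def]; omega) (by simp only [Fin.lt_def]; omega)
    ((hs 1).2 _ (by simp only; omega)) ((hs 2).2 _ (by simp only; omega)) (hs 2).1 e3
    ((hs 4).2 _ (by simp only; omega))

theorem mem_av (A B M : BMat) : M ∈ Av {A, B} ↔ ¬ Minor A M ∧ ¬ Minor B M := by
  simp [Av]

theorem bounded : Bounded (Av {P, R}) := by
  refine ⟨4, fun ⟨m, n, e⟩ ⟨h1, h2⟩ => ?_⟩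
  rw [mem_av, minorP, minorR] at h1
  obtain ⟨hP, hR⟩ := h1
  simp only [not_exists, not_and] at hP hR
  have h3 : ∀ (r : Fin m) (c : Fin n), e r c = false →
      (∃ (r1 r2 r3 : Fin m) (c1 c2 c3 : Fin n), r1 < r2 ∧ r2 < r3 ∧ c1 < c2 ∧ c2 < c3 ∧
        ((r1 = r ∧ c2 = c) ∨ e r1 c2 = true) ∧ ((r2 = r ∧ c1 = c) ∨ e r2 c1 = true) ∧
        ((r3 = r ∧ c3 = c) ∨ e r3 c3 = true)) ∨
      (∃ (r1 r2 r3 : Fin m) (c1 c2 : Fin n), r1 < r2 ∧ r2 < r3 ∧ c1 < c2 ∧
        ((r1 = r ∧ c1 = c) ∨ e r1 c1 = true) ∧ ((r2 = r ∧ c2 = c) ∨ e r2 c2 = true)) := by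
    intro r c hrc
    have := h2 r c hrc
    rw [mem_av, minorP, minorR, not_and_or, not_not, not_not] at this
    have hs : ∀ (x : Fin m) (y : Fin n), (setOne ⟨m, n, e⟩ r c).e x y = true →
        (x = r ∧ y = c) ∨ e x y = true := by
      intro x y h
      by_cases hh : x = r ∧ y = c
      · exact Or.inl hh
      · exact Or.inr ((if_neg hh).symm.trans h)
    rcases this with ⟨r1, r2, r3, c1, c2, c3, x1, x2, y1, y2, e1, e2, e3⟩ |
      ⟨r1, r2, r3, c1, c2, x1, x2, y1, e1, e2⟩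
    · exact Or.inl ⟨r1, r2, r3, c1, c2, c3, x1, x2, y1, y2, hs _ _ e1, hs _ _ e2, hs _ _ e3⟩
    · exact Or.inr ⟨r1, r2, r3, c1, c2, x1, x2, y1, hs _ _ e1, hs _ _ e2⟩
  constructor
  · intro r
    refine runs_le _ fun a b c d _ ab bc cd _ ea eb ec ed _ => ?_
    rcases h3 r c ec with ⟨r1, r2, r3, c1, c2, c3, x1, x2, y1, y2, e1, e2, e3⟩ |
      ⟨r1, r2, r3, c1, c2, x1, x2, y1, e1, e2⟩
    · rcases e1 with ⟨rfl, rfl⟩ | e1
      · have e2' := e2.resolve_left fun h => x1.ne' h.1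
        have e3' := e3.resolve_left fun h => (x1.trans x2).ne' h.1
        rcases lt_or_ge c1 b with h | h
        · exact hP _ _ _ _ _ _ x1 x2 h (bc.trans y2) eb e2' e3'
        · exact hR _ _ _ _ _ x1 x2 (ab.trans_le h) ea e2'
      · rcases e2 with ⟨rfl, rfl⟩ | e2
        · have e3' := e3.resolve_left fun h => x2.ne' h.1
          exact hP _ _ _ _ _ _ x1 x2 (bc.trans y1) y2 e1 eb e3'
        · rcases e3 with ⟨rfl, rfl⟩ | e3
          · exact hP _ _ _ _ _ _ x1 x2 y1 (y2.trans cd) e1 e2 ed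
          · exact hP _ _ _ _ _ _ x1 x2 y1 y2 e1 e2 e3
    · rcases e1 with ⟨rfl, rfl⟩ | e1
      · exact hR _ _ _ _ _ x1 x2 (bc.trans y1) eb (e2.resolve_left fun h => x1.ne' h.1)
      · rcases e2 with ⟨rfl, rfl⟩ | e2
        · exact hR _ _ _ _ _ x1 x2 (y1.trans cd) e1 ed
        · exact hR _ _ _ _ _ x1 x2 y1 e1 e2
  · intro c
    refine runs_le _ fun _ b r d f _ br rd df _ eb er ed _ => ?_
    rcases h3 r c er with ⟨r1, r2, r3, c1, c2, c3, x1, x2, y1, y2, e1, e2, e3⟩ |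
      ⟨r1, r2, r3, c1, c2, x1, x2, y1, e1, e2⟩
    · rcases e1 with ⟨rfl, rfl⟩ | e1
      · have e2' := e2.resolve_left fun h => x1.ne' h.1
        have e3' := e3.resolve_left fun h => (x1.trans x2).ne' h.1
        exact hP _ _ _ _ _ _ (br.trans x1) x2 y1 y2 eb e2' e3'
      · rcases e2 with ⟨rfl, rfl⟩ | e2
        · have e3' := e3.resolve_left fun h => x2.ne' h.1
          rcases lt_or_ge d r3 with h | h
          · exact hP _ _ _ _ _ _ (x1.trans rd) h y1 y2 e1 ed e3'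
          · exact hR _ _ _ _ _ (x1.trans x2) (h.trans_lt df) y2 e1 e3'
        · rcases e3 with ⟨rfl, rfl⟩ | e3
          · exact hP _ _ _ _ _ _ x1 (x2.trans rd) y1 y2 e1 e2 ed
          · exact hP _ _ _ _ _ _ x1 x2 y1 y2 e1 e2 e3
    · rcases e1 with ⟨rfl, rfl⟩ | e1
      · exact hR _ _ _ _ _ (br.trans x1) x2 y1 eb (e2.resolve_left fun h => x1.ne' h.1)
      · rcases e2 with ⟨rfl, rfl⟩ | e2
        · exact hR _ _ _ _ _ (x1.trans rd) df y1 e1 ed
        · exact hR _ _ _ _ _ x1 x2 y1 e1 e2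

theorem exists_critical (C : Set BMat) (m n : ℕ) (e0 : Fin m → Fin n → Bool)
    (h : (⟨m, n, e0⟩ : BMat) ∈ C) :
    ∃ e : Fin m → Fin n → Bool, e0 ≤ e ∧ Critical C ⟨m, n, e⟩ := by
  obtain ⟨e, h1, h2⟩ := Set.Finite.exists_le_maximal
    (s := {e : Fin m → Fin n → Bool | (⟨m, n, e⟩ : BMat) ∈ C}) (Set.toFinite _) h
  refine ⟨e, h1, h2.1, fun r c hrc hm => ?_⟩
  have := h2.2 (y := fun x y => if x = r ∧ y = c then true else e x y) hm (by
    intro x y
    simp only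
    split_ifs <;> simp) r c
  simp only [and_self, if_true] at this
  change e r c = false at hrc
  rw [hrc] at this
  exact absurd this (by decide : ¬ true ≤ false)

def e0 (k : ℕ) (r c : Fin (2 * k + 1)) : Bool :=
  decide ((r.val = 0 ∧ c.val % 2 = 0) ∨ (r.val % 2 = 1 ∧ r.val + c.val + 1 = 2 * k) ∨
    (r.val ≠ 0 ∧ r.val % 2 = 0 ∧ r.val + c.val = 2 * k + 2))

theorem unbounded : ¬ Bounded (Av {P, R'}) := by
  rintro ⟨B, hB⟩
  obtain ⟨e, h1, h2⟩ := exists_critical (Av {P, R'}) _ _ (e0 (B + 1)) (by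
    rw [mem_av, minorP]
    constructor
    · rintro ⟨r1, r2, r3, c1, c2, c3, x1, x2, y1, y2, e1, e2, e3⟩
      simp only [e0, decide_eq_true_eq, Fin.lt_def] at *
      omega
    · intro h
      obtain ⟨r0, r1, r2, r3, c1, c2, x0, x1, x2, y1, e1, e2⟩ := minorR' _ h
      simp only [e0, decide_eq_true_eq, Fin.lt_def] at *
      omega)
  have up : ∀ r c, e0 (B + 1) r c = true → e r c = true := by
    intro r c h
    have := h1 r c
    rw [h] at this
    exact eq_true_of_ne_false fun h' => by rw [h'] at this; exact absurd this (by decide : ¬ true ≤ false)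
  have h3 := (hB _ h2).1 ⟨0, by simp⟩
  have hP := ((mem_av _ _ _).1 h2.1).1
  rw [minorP] at hP
  have h4 := card_le_card_of_injOn (s := (univ : Finset (Fin (B + 1))))
    (t := univ.filter fun c : Fin (2 * (B + 1) + 1) => e ⟨0, by simp⟩ c = false ∧
      ∀ c' : Fin (2 * (B + 1) + 1), c'.val + 1 = c.val → e ⟨0, by simp⟩ c' = true)
    (fun j => ⟨2 * j.val + 1, by have := j.2; omega⟩) (by
      intro j _
      have := j.2
      simp only [coe_filter, mem_univ, true_and, Set.mem_setOf_eq]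
      constructor
      · by_contra hc
        refine hP ⟨⟨0, by simp⟩, ⟨2 * (B + 1 - j.val) - 1, by simp only; omega⟩,
          ⟨2 * (B + 1 - j.val), by simp only; omega⟩, ⟨2 * j.val, by simp only; omega⟩,
          ⟨2 * j.val + 1, by simp only; omega⟩, ⟨2 * j.val + 2, by simp only; omega⟩,
          ?_, ?_, ?_, ?_, by simpa using hc, up _ _ ?_, up _ _ ?_⟩ <;>
          simp only [e0, decide_eq_true_eq, Fin.lt_def] <;> omega
      · intro c' hc'
        apply up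
        have hc2 : c'.val + 1 = 2 * j.val + 1 := hc'
        exact decide_eq_true (Or.inl ⟨rfl, by omega⟩)) (by
      intro a _ b _ hab
      simp only [Fin.mk.injEq] at hab
      exact Fin.ext (by omega))
  simp only [card_univ, Fintype.card_fin] at h4
  unfold zeroRuns at h3
  exact absurd (h4.trans h3) (by omega)

theorem result : ∃ P R P' R' : BMat, InsertEmpty P P' ∧ InsertEmpty R R' ∧
    ¬ Minor P R ∧ ¬ Minor R P ∧ Bounded (Av {P, R}) ∧ ¬ Bounded (Av {P', R'}) := by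
  refine ⟨P, R, P, R', ⟨id, id, strictMono_id, strictMono_id, fun _ _ => rfl,
    fun x y _ => ⟨x, y, rfl, rfl⟩⟩, ⟨(![1, 3, 4] : Fin 3 → Fin 5), id, ?_, strictMono_id, ?_, ?_⟩,
    ?_, ?_, bounded, unbounded⟩
  · exact sm3 (m := 5) (by decide) (by decide)
  · exact (by decide : ∀ (i : Fin 3) (j : Fin 2), R'.e ((![1, 3, 4] : Fin 3 → Fin 5) i) j = R.e i j)
  · exact (by decide : ∀ (x : Fin 5) (y : Fin 2), R'.e x y = true →
      ∃ (i : Fin 3) (j : Fin 2), x = (![1, 3, 4] : Fin 3 → Fin 5) i ∧ y = j)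
  · rw [minorP]
    rintro ⟨-, -, -, c1, c2, c3, -, -, y1, y2, -⟩
    have : c3.val < 2 := c3.2
    simp only [Fin.lt_def] at y1 y2
    omega
  · rw [minorR]
    exact (by decide : ¬ ∃ (r1 r2 r3 : Fin 3) (c1 c2 : Fin 3), r1 < r2 ∧ r2 < r3 ∧ c1 < c2 ∧
      P.e r1 c1 = true ∧ P.e r2 c2 = true)

end Pool.Agent.Results.MP_5adcc8_co.Counter
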